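import Mathlib

/-! Double counting of pairs of sites (MP_448cb3_co). -/

namespace Pool.Agent.GaussPoset.St

set_option linter.unusedSectionVars false

open Finset

section cnt

variable {α β : Type*} [DecidableEq α] [DecidableEq β] {N : Finset β} {R : β → Finset α}
  {V : Finset α}

lemma cnt_one (hR : ∀ z ∈ N, R z ⊆ V) (hc : ∀ z ∈ N, (R z).card ≤ 2) (v : α) :
    ∑ w ∈ V.erase v, ((N.filter (fun z => v ∈ R z ∧ w ∈ R z)).card : ℤ) =
      (N.filter (fun z => v ∈ R z ∧ (R z).card = 2)).card := by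
  have h1 : ∀ w ∈ V.erase v, ((N.filter (fun z => v ∈ R z ∧ w ∈ R z)).card : ℤ) =
      ∑ z ∈ N, if v ∈ R z ∧ w ∈ R z then 1 else 0 := by
    intro w _
    rw [sum_boole]
  have h2 : ((N.filter (fun z => v ∈ R z ∧ (R z).card = 2)).card : ℤ) =
      ∑ z ∈ N, if v ∈ R z ∧ (R z).card = 2 then 1 else 0 := by
    rw [sum_boole]
  rw [sum_congr rfl h1, sum_comm, h2]
  refine sum_congr rfl (fun z hz => ?_)
  by_cases hv : v ∈ R z
  · simp only [hv, true_and]
    have h3 : (V.erase v).filter (fun w => w ∈ R z) = (R z).erase v := by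
      ext w
      rw [mem_filter, mem_erase, mem_erase]
      constructor
      · rintro ⟨⟨h4, _⟩, h5⟩
        exact ⟨h4, h5⟩
      · rintro ⟨h4, h5⟩
        exact ⟨⟨h4, hR z hz h5⟩, h5⟩
    rw [sum_boole, h3, card_erase_of_mem hv]
    have h4 := hc z hz
    have h5 : 1 ≤ (R z).card := card_pos.2 ⟨v, hv⟩
    split_ifs with h6
    · rw [h6]
      norm_num
    · have h7 : (R z).card = 1 := by omega
      rw [h7]
      norm_num
  · simp [hv]

lemma cnt_two (hR : ∀ z ∈ N, R z ⊆ V) (hc : ∀ z ∈ N, (R z).card ≤ 2) (g : α → ℤ) :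
    ∑ u ∈ V, ∑ w ∈ V.erase u, ((N.filter (fun z => u ∈ R z ∧ w ∈ R z)).card : ℤ) * (g u * g w) =
      2 * ∑ z ∈ N.filter (fun z => (R z).card = 2), ∏ v ∈ R z, g v := by
  have h1 : ∑ u ∈ V, ∑ w ∈ V.erase u,
      ((N.filter (fun z => u ∈ R z ∧ w ∈ R z)).card : ℤ) * (g u * g w) =
      ∑ z ∈ N, ∑ u ∈ V, ∑ w ∈ V.erase u,
        (if u ∈ R z ∧ w ∈ R z then 1 else 0) * (g u * g w) := by
    rw [sum_comm]
    refine sum_congr rfl (fun u _ => ?_)
    rw [sum_comm]
    refine sum_congr rfl (fun w _ => ?_)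
    rw [← sum_mul, sum_boole]
  rw [h1, mul_sum, sum_filter]
  refine sum_congr rfl (fun z hz => ?_)
  have h2 : ∀ u ∈ V, ∑ w ∈ V.erase u, (if u ∈ R z ∧ w ∈ R z then 1 else 0) * (g u * g w) =
      if u ∈ R z then ∑ w ∈ (R z).erase u, g u * g w else 0 := by
    intro u _
    by_cases hu : u ∈ R z
    · rw [if_pos hu]
      have h3 : (V.erase u).filter (fun w => w ∈ R z) = (R z).erase u := by
        ext w
        rw [mem_filter, mem_erase, mem_erase]
        constructor
        · rintro ⟨⟨h4, _⟩, h5⟩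
          exact ⟨h4, h5⟩
        · rintro ⟨h4, h5⟩
          exact ⟨⟨h4, hR z hz h5⟩, h5⟩
      rw [← h3, sum_filter]
      refine sum_congr rfl (fun w _ => ?_)
      by_cases hw : w ∈ R z
      · rw [if_pos ⟨hu, hw⟩, if_pos hw, one_mul]
      · rw [if_neg (fun h => hw h.2), if_neg hw, zero_mul]
    · rw [if_neg hu]
      refine sum_eq_zero (fun w _ => ?_)
      rw [if_neg (fun h => hu h.1), zero_mul]
  have h3 : V.filter (fun u => u ∈ R z) = R z := by
    ext u
    rw [mem_filter]
    exact ⟨fun h => h.2, fun h => ⟨hR z hz h, h⟩⟩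
  rw [sum_congr rfl h2, ← sum_filter, h3]
  by_cases hc2 : (R z).card = 2
  · rw [if_pos hc2]
    obtain ⟨a, b, hab, hz2⟩ := card_eq_two.1 hc2
    have h4 : ({a, b} : Finset α).erase a = {b} := by
      rw [erase_insert]
      rw [mem_singleton]
      exact hab
    have h5 : ({a, b} : Finset α).erase b = {a} := by
      rw [pair_comm, erase_insert]
      rw [mem_singleton]
      exact hab.symm
    rw [hz2, sum_pair hab, h4, h5, sum_singleton, sum_singleton, prod_pair hab]
    ring
  · rw [if_neg hc2]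
    refine sum_eq_zero (fun u hu => ?_)
    have h4 : (R z).erase u = ∅ := by
      rw [← card_eq_zero, card_erase_of_mem hu]
      have := hc z hz
      omega
    rw [h4, sum_empty]

end cnt

end Pool.Agent.GaussPoset.St
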