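import Pool.Agent.W_448gj_h24.GjA
import Pool.Agent.W_448st_h88.MgF
import Pool.Agent.W_448win_h16.E2Final

/-! Covers of a site, and the contribution of a star (MP_448cb3_co). -/

namespace Pool.Agent.GaussPoset.St

set_option linter.unusedSectionVars false

open Finset Polynomial Win

universe u

variable {P : Type u} [Fintype P] [PartialOrder P] [DecidableEq P] {r j : ℕ}

open Classical in
/-- the upper near elements -/
noncomputable def upN (P : Type u) [Fintype P] [PartialOrder P] [DecidableEq P] (j : ℕ) :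
    Finset P := univ.filter (fun y : P => lev y + 1 = j)

lemma mem_upN {y : P} : y ∈ upN P j ↔ lev y + 1 = j := by
  classical
  unfold upN
  simp

lemma Gj_dcv (H : Gr P r) {u w : P} (hu : lev u = j) :
    dcv u w = ((lv P (j + 1)).filter (fun z => u ∈ uc z ∧ w ∈ uc z)).card := by
  classical
  unfold dcv
  congr 1
  ext z
  simp only [mem_filter, mem_univ, true_and, mem_lv, mem_uc]
  constructor
  · rintro ⟨h1, h2⟩
    exact ⟨(lev_uc H (mem_uc.2 h1)).trans (by rw [hu]), h1, h2⟩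
  · rintro ⟨_, h1, h2⟩
    exact ⟨h1, h2⟩

lemma Gj_ucv (H : Gr P r) {u w : P} (hu : lev u = j) :
    ucv u w = ((upN P j).filter (fun z => u ∈ dc z ∧ w ∈ dc z)).card := by
  classical
  unfold ucv
  congr 1
  ext z
  simp only [mem_filter, mem_univ, true_and, mem_upN, mem_dc]
  constructor
  · rintro ⟨h1, h2⟩
    exact ⟨(lev_dc H (mem_dc.2 h1)).symm.trans hu, h1, h2⟩
  · rintro ⟨_, h1, h2⟩
    exact ⟨h1, h2⟩

lemma Gj_uc_sub (H : Gr P r) {z : P} (hz : z ∈ lv P (j + 1)) : uc z ⊆ lv P j := by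
  intro v hv
  rw [mem_lv] at hz ⊢
  have := lev_uc H hv
  omega

lemma Gj_dc_sub (H : Gr P r) {z : P} (hz : z ∈ upN P j) : dc z ⊆ lv P j := by
  intro v hv
  rw [mem_upN] at hz
  rw [mem_lv]
  have := lev_dc H hv
  omega

lemma Gj_Bf (H : Gr P r) {v w : P} (hv : lev v = j) (hne : v ≠ w) :
    Bf j {v, w} = (dcv v w : ℤ) + ucv v w := by
  unfold Bf
  rw [CoreC_L_pair H hv hne, CoreC_U_pair H hv hne]

lemma Gj_sum_dcv (H : Gr P r) {v : P} (hv : lev v = j) :
    ∑ w ∈ (lv P j).erase v, (dcv v w : ℤ) =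
      ((dc v).filter (fun z => (uc z).card = 2)).card := by
  have h1 : ∀ w ∈ (lv P j).erase v, (dcv v w : ℤ) =
      (((lv P (j + 1)).filter (fun z => v ∈ uc z ∧ w ∈ uc z)).card : ℤ) := by
    intro w _
    rw [Gj_dcv H hv]
  rw [sum_congr rfl h1, cnt_one (fun z hz => Gj_uc_sub H hz) (fun z _ => uc_card_le H z)]
  congr 2
  ext z
  rw [mem_filter, mem_filter, mem_lv, mem_dc, mem_uc]
  constructor
  · rintro ⟨_, h2, h3⟩
    exact ⟨h2, h3⟩
  · rintro ⟨h2, h3⟩
    exact ⟨(lev_uc H (mem_uc.2 h2)).trans (by rw [hv]), h2, h3⟩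

lemma Gj_sum_ucv (H : Gr P r) {v : P} (hv : lev v = j) :
    ∑ w ∈ (lv P j).erase v, (ucv v w : ℤ) =
      ((uc v).filter (fun z => (dc z).card = 2)).card := by
  have h1 : ∀ w ∈ (lv P j).erase v, (ucv v w : ℤ) =
      (((upN P j).filter (fun z => v ∈ dc z ∧ w ∈ dc z)).card : ℤ) := by
    intro w _
    rw [Gj_ucv H hv]
  rw [sum_congr rfl h1, cnt_one (fun z hz => Gj_dc_sub H hz) (fun z _ => dc_card_le H z)]
  congr 2
  ext z
  rw [mem_filter, mem_filter, mem_upN, mem_dc, mem_uc]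
  constructor
  · rintro ⟨_, h2, h3⟩
    exact ⟨h2, h3⟩
  · rintro ⟨h2, h3⟩
    exact ⟨(lev_dc H (mem_dc.2 h2)).symm.trans hv, h2, h3⟩

lemma Gj_split {s : Finset P} {f : P → ℕ} (h1 : ∀ z ∈ s, 1 ≤ f z) (h2 : ∀ z ∈ s, f z ≤ 2) :
    (s.filter (fun z => f z = 2)).card + (s.filter (fun z => f z = 1)).card = s.card := by
  rw [← card_union_of_disjoint]
  · congr 1
    ext z
    rw [mem_union, mem_filter, mem_filter]
    constructor
    · rintro (h | h)
      · exact h.1
      · exact h.1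
    · intro h
      have := h1 z h
      have := h2 z h
      by_cases h3 : f z = 2
      · exact Or.inl ⟨h, h3⟩
      · exact Or.inr ⟨h, by omega⟩
  · rw [disjoint_left]
    intro z hz hz'
    have e1 := (mem_filter.1 hz).2
    have e2 := (mem_filter.1 hz').2
    omega

/-- the covers of a site -/
theorem Gj_cov (H : Gr P r) {v : P} (hv : lev v = j) :
    cov (Bf j) sing (lv P j) v = ((uc v).card : ℤ) + (dc v).card := by
  classical
  unfold cov
  have h1 : ∑ w ∈ (lv P j).erase v, Bf j {v, w} =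
      ∑ w ∈ (lv P j).erase v, (dcv v w : ℤ) + ∑ w ∈ (lv P j).erase v, (ucv v w : ℤ) := by
    rw [← sum_add_distrib]
    refine sum_congr rfl (fun w hw => ?_)
    rw [Gj_Bf H hv (ne_of_mem_erase hw).symm]
  have h2 : ((dc v).filter (fun z => (uc z).card = 2)).card +
      ((dc v).filter (fun z => (uc z).card = 1)).card = (dc v).card := by
    refine Gj_split (fun z hz => ?_) (fun z _ => uc_card_le H z)
    exact card_pos.2 ⟨v, mem_uc.2 (mem_dc.1 hz)⟩
  have h3 : ((uc v).filter (fun z => (dc z).card = 2)).card +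
      ((uc v).filter (fun z => (dc z).card = 1)).card = (uc v).card := by
    refine Gj_split (fun z hz => ?_) (fun z _ => dc_card_le H z)
    exact card_pos.2 ⟨v, mem_dc.2 (mem_uc.1 hz)⟩
  have h4 : sing v = (((dc v).filter (fun z => (uc z).card = 1)).card : ℤ) +
      ((uc v).filter (fun z => (dc z).card = 1)).card := by
    unfold sing
    congr 3
  rw [h1, Gj_sum_dcv H hv, Gj_sum_ucv H hv, h4, ← h2, ← h3]
  push_cast
  ring

/-- the contribution of a star -/
theorem Gj_Tz (H : Gr P r) {I : Finset (P × P × P)} (hI : Starry (Df j) (lv P j) I)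
    {d : P × P × P} (hd : d ∈ I) : Tv (Bf j) sing (lv P j) d = Tz d := by
  have hs := mem_lv.1 (hI.mem_s hd)
  have ha := mem_lv.1 (hI.mem_a hd)
  have hb := mem_lv.1 (hI.mem_b hd)
  have hst := hI.star d hd
  unfold Tv Tz
  rw [Gj_cov H ha, Gj_cov H hb, Gj_Bf H hs hst.sa, Gj_Bf H hs hst.sb]

end Pool.Agent.GaussPoset.St
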