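import Pool.Agent.W_448gj_h24.GjB

/-! Assembly at the first bad level: level `j` is good (MP_448cb3_co). -/

namespace Pool.Agent.GaussPoset.St

set_option linter.unusedSectionVars false

open Finset Polynomial Win

section sgn

variable {α : Type*} [DecidableEq α] {A : Finset α → ℤ} {V : Finset α}
  {I : Finset (α × α × α)}

lemma Starry.eps_val (H : Starry A V I) (u : α) :
    eps I u = 0 ∨ (∃ d ∈ I, u = d.2.1 ∧ eps I u = 1) ∨
      (∃ d ∈ I, u = d.2.2 ∧ eps I u = -1) := by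
  by_cases h : ∃ d ∈ I, u ∈ sp d
  · obtain ⟨d, hd, h1⟩ := h
    rcases mem_sp.1 h1 with rfl | rfl | rfl
    · exact Or.inl (H.eps_s hd)
    · exact Or.inr (Or.inl ⟨d, hd, rfl, H.eps_a hd⟩)
    · exact Or.inr (Or.inr ⟨d, hd, rfl, H.eps_b hd⟩)
  · exact Or.inl (H.eps_none (fun d hd hu => h ⟨d, hd, hu⟩))

lemma Starry.eps_ge (H : Starry A V I) (u : α) : 0 ≤ 1 + eps I u := by
  rcases H.eps_val u with h | ⟨_, _, _, h⟩ | ⟨_, _, _, h⟩ <;> rw [h] <;> norm_num

lemma Starry.F_nonneg (H : Starry A V I) {u w : α} (huw : u ≠ w) : 0 ≤ Fm A V {u, w} := by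
  by_cases h : ∃ d ∈ I, u ∈ sp d ∧ w ∈ sp d
  · obtain ⟨d, hd, h1, h2⟩ := h
    rw [H.F_two hd h1 h2 huw]
    norm_num
  · rw [H.F_mul (fun d hd h' => h ⟨d, hd, h'⟩)]
    exact mul_nonneg (H.eps_ge u) (H.eps_ge w)

lemma Starry.F_zero (H : Starry A V I) {u w : α} (huw : u ≠ w) (h : Fm A V {u, w} = 0) :
    ∃ d ∈ I, u = d.2.2 ∨ w = d.2.2 := by
  by_cases h' : ∃ d ∈ I, u ∈ sp d ∧ w ∈ sp d
  · obtain ⟨d, hd, h1, h2⟩ := h'
    rw [H.F_two hd h1 h2 huw] at h
    norm_num at h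
  · rw [H.F_mul (fun d hd h1 => h' ⟨d, hd, h1⟩), mul_eq_zero] at h
    rcases h with h | h
    · rcases H.eps_val u with h1 | ⟨d, hd, _, h1⟩ | ⟨d, hd, h2, _⟩
      · rw [h1] at h
        norm_num at h
      · rw [h1] at h
        norm_num at h
      · exact ⟨d, hd, Or.inl h2⟩
    · rcases H.eps_val w with h1 | ⟨d, hd, _, h1⟩ | ⟨d, hd, h2, _⟩
      · rw [h1] at h
        norm_num at h
      · rw [h1] at h
        norm_num at h
      · exact ⟨d, hd, Or.inr h2⟩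

lemma Starry.B_nonneg (H : Starry A V I) {B : Finset α → ℤ} (hB : ∀ T, 0 ≤ B T)
    (hc : ∀ d ∈ I, ∀ d' ∈ I, d ≠ d' → B {d.2.1, d'.2.2} = 0) (u w : α) :
    0 ≤ B {u, w} * (nst I u w * (eps I u * eps I w)) := by
  unfold nst
  split_ifs with h
  · rw [zero_mul, mul_zero]
  · rw [one_mul]
    rcases H.eps_val u with h1 | ⟨d, hd, h2, h1⟩ | ⟨d, hd, h2, h1⟩
    · rw [h1, zero_mul, mul_zero]
    · rcases H.eps_val w with h3 | ⟨d', hd', h4, h3⟩ | ⟨d', hd', h4, h3⟩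
      · rw [h3, mul_zero, mul_zero]
      · rw [h1, h3]
        have := hB {u, w}
        linarith
      · have hne : d ≠ d' := by
          rintro rfl
          exact h ⟨d, hd, mem_sp.2 (Or.inr (Or.inl h2)), mem_sp.2 (Or.inr (Or.inr h4))⟩
        rw [h2, h4, hc d hd d' hd' hne, zero_mul]
    · rcases H.eps_val w with h3 | ⟨d', hd', h4, h3⟩ | ⟨d', hd', h4, h3⟩
      · rw [h3, mul_zero, mul_zero]
      · have hne : d' ≠ d := by
          rintro rfl
          exact h ⟨d', hd, mem_sp.2 (Or.inr (Or.inr h2)), mem_sp.2 (Or.inr (Or.inl h4))⟩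
        rw [h2, h4, pair_comm, hc d' hd' d hd hne, zero_mul]
      · rw [h1, h3]
        have := hB {u, w}
        linarith

end sgn

universe u

variable {P : Type u} [Fintype P] [PartialOrder P] [DecidableEq P] {r j : ℕ}
  {I : Finset (P × P × P)}

/-- indicator of double-up -/
noncomputable def gd (v : P) : ℤ := if (uc v).card = 2 then 1 else 0

lemma gd_nonneg (v : P) : 0 ≤ gd v := by
  unfold gd
  split_ifs <;> norm_num

open Classical in
/-- the double elements of both sides with double-up sites -/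
def Inn (P : Type u) [Fintype P] [PartialOrder P] [DecidableEq P] (j : ℕ) : Prop :=
  (univ.filter (fun z : P => lev z = j + 1 ∧ (uc z).card = 2 ∧
      ∀ v ∈ uc z, (uc v).card = 2)).card =
    (univ.filter (fun y : P => lev y + 1 = j ∧ (dc y).card = 2 ∧
      ∀ v ∈ dc y, (uc v).card = 2)).card

lemma Gj_inner (H : Gr P r) (hin : Inn P j) :
    ∑ u ∈ lv P j, ∑ w ∈ (lv P j).erase u, Df j {u, w} * (gd u * gd w) = 0 := by
  classical
  have h1 : ∑ u ∈ lv P j, ∑ w ∈ (lv P j).erase u, Df j {u, w} * (gd u * gd w) =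
      ∑ u ∈ lv P j, ∑ w ∈ (lv P j).erase u,
        ((((lv P (j + 1)).filter (fun z => u ∈ uc z ∧ w ∈ uc z)).card : ℤ) * (gd u * gd w)) -
      ∑ u ∈ lv P j, ∑ w ∈ (lv P j).erase u,
        ((((upN P j).filter (fun z => u ∈ dc z ∧ w ∈ dc z)).card : ℤ) * (gd u * gd w)) := by
    simp only [← sum_sub_distrib]
    refine sum_congr rfl (fun u hu => sum_congr rfl (fun w hw => ?_))
    rw [Df_pair H (mem_lv.1 hu) (ne_of_mem_erase hw).symm, Gj_dcv H (mem_lv.1 hu),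
      Gj_ucv H (mem_lv.1 hu)]
    ring
  rw [h1, cnt_two (fun z hz => Gj_uc_sub H hz) (fun z _ => uc_card_le H z) gd,
    cnt_two (fun z hz => Gj_dc_sub H hz) (fun z _ => dc_card_le H z) gd]
  have h2 : ∀ s : Finset P, ∏ v ∈ s, gd v = if ∀ v ∈ s, (uc v).card = 2 then 1 else 0 := by
    intro s
    unfold gd
    rw [prod_boole]
    congr
  simp only [h2]
  rw [sum_boole, sum_boole, filter_filter, filter_filter]
  have h3 : ((lv P (j + 1)).filter (fun z => (uc z).card = 2 ∧ ∀ v ∈ uc z, (uc v).card = 2)).card =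
      ((upN P j).filter (fun z => (dc z).card = 2 ∧ ∀ v ∈ dc z, (uc v).card = 2)).card := by
    unfold Inn at hin
    convert hin using 2
    · ext z
      simp only [mem_filter, mem_univ, true_and, mem_lv]
    · ext z
      simp only [mem_filter, mem_univ, true_and, mem_upN]
  rw [h3, sub_self]

/-- no star has its lost edge inside -/
lemma Gj_lost (H : Gr P r) (hI : Starry (Df j) (lv P j) I) (hV : ∀ d ∈ I, Val j d)
    (hin : Inn P j) (hT : ∀ d ∈ I, Tz d = 0) :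
    ∀ d ∈ I, (uc d.2.2).card = 1 ∧ ∀ w, lev w = j → w ≠ d.2.2 → dcv d.2.2 w = 0 := by
  have h1 := hI.sum_A (fun u w => gd u * gd w)
  rw [Gj_inner H hin] at h1
  have h2 : ∀ d ∈ I, (gd d.1 * gd d.2.1 + gd d.2.1 * gd d.1 - gd d.1 * gd d.2.2 -
      gd d.2.2 * gd d.1) = -2 * (gd d.1 * gd d.2.2) := by
    intro d hd
    have h3 : gd d.2.1 = 0 := by
      unfold gd
      rw [if_neg]
      rw [(hV d hd).new (hT d hd)]
      norm_num
    rw [h3]
    ring
  rw [sum_congr rfl h2, ← mul_sum] at h1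
  have h3 : ∑ d ∈ I, gd d.1 * gd d.2.2 = 0 := by linarith
  rw [sum_eq_zero_iff_of_nonneg (fun d _ => mul_nonneg (gd_nonneg _) (gd_nonneg _))] at h3
  intro d hd
  rcases (hV d hd).lost (hT d hd) with ⟨h4, h5⟩ | h4
  · have h6 := h3 d hd
    unfold gd at h6
    rw [if_pos h4, if_pos h5] at h6
    norm_num at h6
  · exact h4

/-- nothing is below a double element -/
lemma Gj_PD (H : Gr P r) (hI : Starry (Df j) (lv P j) I)
    (hl : ∀ d ∈ I, (uc d.2.2).card = 1 ∧ ∀ w, lev w = j → w ≠ d.2.2 → dcv d.2.2 w = 0)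
    {th : Finset P → ℤ}
    (h1 : ∀ z ∈ PD P j, ∀ w, z ⋖ w → (uc w).card = 2 → 1 ≤ th (uc w))
    (hth : ∀ u ∈ lv P j, ∀ w ∈ (lv P j).erase u,
      th {u, w} * Fm (Df j) (lv P j) {u, w} = 0) : PD P j = ∅ := by
  classical
  rw [eq_empty_iff_forall_notMem]
  intro z hz
  have hz' := hz
  unfold PD at hz'
  rw [mem_filter] at hz'
  obtain ⟨-, hz1, -, w, hzw, hw⟩ := hz'
  have h2 := h1 z hz w hzw hw
  obtain ⟨u, v, huv, huc⟩ := card_eq_two.1 hw
  have hlw : lev w = j + 1 := by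
    have := lev_uc H (mem_uc.2 hzw)
    omega
  have hu : u ∈ uc w := by rw [huc]; exact mem_insert_self _ _
  have hv : v ∈ uc w := by rw [huc]; exact mem_insert_of_mem (mem_singleton_self _)
  have hlu : lev u = j := by
    have := lev_uc H hu
    omega
  have hlv : lev v = j := by
    have := lev_uc H hv
    omega
  rw [huc] at h2
  have h3 := hth u (mem_lv.2 hlu) v (mem_erase.2 ⟨huv.symm, mem_lv.2 hlv⟩)
  have h4 : Fm (Df j) (lv P j) {u, v} = 0 := by
    rcases mul_eq_zero.1 h3 with h | h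
    · omega
    · exact h
  have hd1 : 1 ≤ dcv u v := StA_dcv_pos (mem_uc.1 hu) (mem_uc.1 hv)
  have hd2 : 1 ≤ dcv v u := StA_dcv_pos (mem_uc.1 hv) (mem_uc.1 hu)
  obtain ⟨d, hd, h5 | h5⟩ := hI.F_zero huv h4
  · have h6 := (hl d hd).2 v hlv (h5 ▸ huv.symm)
    rw [← h5] at h6
    omega
  · have h6 := (hl d hd).2 u hlu (h5 ▸ huv)
    rw [← h5] at h6
    omega

/-- ASSEMBLY: if the defects are carried by disjoint stars with the local properties, and the first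
order identity holds, then the level is good. -/
theorem good_j_of (H : Gr P r) (hj : 1 ≤ j) (hr : j + 1 ≤ r)
    (hI : Starry (Df j) (lv P j) I) (hV : ∀ d ∈ I, Val j d)
    (hc : ∀ d ∈ I, ∀ d' ∈ I, d ≠ d' → dcv d.2.1 d'.2.2 = 0 ∧ ucv d.2.1 d'.2.2 = 0)
    {th : Finset P → ℤ} (h0 : ∀ T, 0 ≤ th T)
    (h1 : ∀ z ∈ PD P j, ∀ w, z ⋖ w → (uc w).card = 2 → 1 ≤ th (uc w))
    (h6 : ∑ u ∈ lv P j, ∑ w ∈ (lv P j).erase u, Bf j {u, w} *
        (Fm (Df j) (lv P j) {u, w} + Fm (Df j) (lv P j) {u} + Fm (Df j) (lv P j) {w} - 3) +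
      2 * ∑ u ∈ lv P j, ∑ w ∈ (lv P j).erase u, th {u, w} * Fm (Df j) (lv P j) {u, w} =
      4 * ∑ v ∈ lv P j, (gg (Df j) (lv P j) v - 1) -
        4 * ∑ v ∈ lv P j, sing v * (Fm (Df j) (lv P j) {v} - 1))
    (hin : Inn P j) (hPU : PU P j = ∅) : Good P j := by
  classical
  have hB : ∀ T : Finset P, 0 ≤ Bf j T := by
    intro T
    unfold Bf
    positivity
  have hc' : ∀ d ∈ I, ∀ d' ∈ I, d ≠ d' → Bf j {d.2.1, d'.2.2} = 0 := by
    intro d hd d' hd' hne
    have h2 := hc d hd d' hd' hne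
    rw [Gj_Bf H (mem_lv.1 (hI.mem_a hd)), h2.1, h2.2]
    · norm_num
    · intro h
      refine disjoint_left.1 (hI.disj d hd d' hd' hne) (mem_sp.2 (Or.inr (Or.inl rfl))) ?_
      rw [h]
      exact mem_sp.2 (Or.inr (Or.inr rfl))
  have hval := hI.value h6
  rw [sum_congr rfl (fun d hd => Gj_Tz H hI hd)] at hval
  have hS1 : 0 ≤ ∑ u ∈ lv P j, ∑ w ∈ (lv P j).erase u,
      Bf j {u, w} * (nst I u w * (eps I u * eps I w)) :=
    sum_nonneg (fun u _ => sum_nonneg (fun w _ => hI.B_nonneg hB hc' u w))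
  have hF : ∀ u ∈ lv P j, ∀ w ∈ (lv P j).erase u,
      0 ≤ th {u, w} * Fm (Df j) (lv P j) {u, w} := by
    intro u _ w hw
    exact mul_nonneg (h0 _) (hI.F_nonneg (ne_of_mem_erase hw).symm)
  have hS2 : 0 ≤ ∑ u ∈ lv P j, ∑ w ∈ (lv P j).erase u,
      th {u, w} * Fm (Df j) (lv P j) {u, w} :=
    sum_nonneg (fun u hu => sum_nonneg (fun w hw => hF u hu w hw))
  have hT0 : ∑ d ∈ I, Tz d ≤ 0 := sum_nonpos (fun d hd => (hV d hd).le)
  have hT1 : ∑ d ∈ I, Tz d = 0 := by linarith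
  have hS3 : ∑ u ∈ lv P j, ∑ w ∈ (lv P j).erase u,
      th {u, w} * Fm (Df j) (lv P j) {u, w} = 0 := by linarith
  have hT : ∀ d ∈ I, Tz d = 0 :=
    (sum_eq_zero_iff_of_nonpos (fun d hd => (hV d hd).le)).1 hT1
  have hth : ∀ u ∈ lv P j, ∀ w ∈ (lv P j).erase u,
      th {u, w} * Fm (Df j) (lv P j) {u, w} = 0 := by
    intro u hu
    have h2 := (sum_eq_zero_iff_of_nonneg
      (fun u hu => sum_nonneg (fun w hw => hF u hu w hw))).1 hS3 u hu
    exact (sum_eq_zero_iff_of_nonneg (fun w hw => hF u hu w hw)).1 h2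
  have hl := Gj_lost H hI hV hin hT
  have hPD := Gj_PD H hI hl h1 hth
  intro v v' hv hv' hne
  have hb : 2 ≤ (lv P j).card := by
    rw [← card_pair hne]
    refine card_le_card ?_
    intro x hx
    rw [mem_insert, mem_singleton] at hx
    rw [mem_lv]
    rcases hx with rfl | rfl
    · exact hv
    · exact hv'
  have h21 := E21 H hj hr hb
  have e1 : ∀ v ∈ lv P j, dgD j v - dgT j v = eps I v := by
    intro v hv
    rw [← hI.dg_eq hv]
    unfold dgD dgT dg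
    rw [← sum_sub_distrib]
    refine sum_congr rfl (fun w hw => ?_)
    rw [Df_pair H (mem_lv.1 hv) (ne_of_mem_erase hw).symm]
  have e2 : ∀ v ∈ lv P j, dgD j v + dgT j v = ∑ w ∈ (lv P j).erase v, Bf j {v, w} := by
    intro v hv
    unfold dgD dgT
    rw [← sum_add_distrib]
    refine sum_congr rfl (fun w hw => ?_)
    rw [Gj_Bf H (mem_lv.1 hv) (ne_of_mem_erase hw).symm]
  have e3 : ∑ v ∈ lv P j, ∑ v' ∈ (lv P j).erase v, ((dcv v v' : ℤ) ^ 2 - (ucv v v' : ℤ) ^ 2) =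
      ∑ d ∈ I, 2 * (Bf j {d.1, d.2.1} - Bf j {d.1, d.2.2}) := by
    have h2 := hI.sum_A (fun u w => Bf j {u, w})
    rw [show ∑ v ∈ lv P j, ∑ v' ∈ (lv P j).erase v, ((dcv v v' : ℤ) ^ 2 - (ucv v v' : ℤ) ^ 2) =
      ∑ u ∈ lv P j, ∑ w ∈ (lv P j).erase u, Df j {u, w} * Bf j {u, w} from ?_, h2]
    · refine sum_congr rfl (fun d _ => ?_)
      rw [pair_comm d.2.1 d.1, pair_comm d.2.2 d.1]
      ring
    · refine sum_congr rfl (fun u hu => sum_congr rfl (fun w hw => ?_))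
      rw [Df_pair H (mem_lv.1 hu) (ne_of_mem_erase hw).symm,
        Gj_Bf H (mem_lv.1 hu) (ne_of_mem_erase hw).symm]
      ring
  have e4 : ∑ v ∈ lv P j, (dgD j v - dgT j v) * sing v +
      ∑ v ∈ lv P j, (dgD j v ^ 2 - dgT j v ^ 2) =
      ∑ d ∈ I, (cov (Bf j) sing (lv P j) d.2.1 - cov (Bf j) sing (lv P j) d.2.2) := by
    rw [← hI.sum_eps, ← sum_add_distrib]
    refine sum_congr rfl (fun v hv => ?_)
    unfold cov
    rw [← e1 v hv, ← e2 v hv]
    ring
  have e5 : 4 * ∑ d ∈ I, (cov (Bf j) sing (lv P j) d.2.1 - cov (Bf j) sing (lv P j) d.2.2) -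
      ∑ d ∈ I, 2 * (Bf j {d.1, d.2.1} - Bf j {d.1, d.2.2}) = 0 := by
    rw [hPD, hPU, card_empty] at h21
    rw [← e3, ← e4]
    push_cast at h21
    linarith
  have e6 : ∑ d ∈ I, (Tv (Bf j) sing (lv P j) d + 4) = 0 := by
    rw [mul_sum, ← sum_sub_distrib] at e5
    have e7 : ∑ d ∈ I, (Tv (Bf j) sing (lv P j) d + 4) =
        -∑ d ∈ I, (4 * (cov (Bf j) sing (lv P j) d.2.1 - cov (Bf j) sing (lv P j) d.2.2) -
          2 * (Bf j {d.1, d.2.1} - Bf j {d.1, d.2.2})) := by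
      rw [← sum_neg_distrib]
      refine sum_congr rfl (fun d _ => ?_)
      unfold Tv
      ring
    rw [e7, e5, neg_zero]
  have e8 : ∑ d ∈ I, (Tv (Bf j) sing (lv P j) d + 4) = ∑ d ∈ I, (4 : ℤ) := by
    refine sum_congr rfl (fun d hd => ?_)
    rw [Gj_Tz H hI hd, hT d hd, zero_add]
  rw [e8, sum_const, nsmul_eq_mul] at e6
  have hI0 : I = ∅ := by
    rw [← card_eq_zero]
    have : (I.card : ℤ) = 0 := by linarith
    exact_mod_cast this
  have h7 := hI.zero v (mem_lv.2 hv) v' (mem_lv.2 hv') hne (by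
    intro d hd
    rw [hI0] at hd
    exact absurd hd (notMem_empty d))
  rw [Df_pair H hv hne] at h7
  omega

end Pool.Agent.GaussPoset.St
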