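import Pool.Agent.W_448gj_h24.GjC
import Pool.Agent.W_448st_h88.MgH
import Pool.Agent.W_448st_h88.MgI
import Pool.Agent.W_448C_h48.StG
import Pool.Agent.W_448g_h5.GD

/-! Level `j` is good, from the first order identity (MP_448cb3_co). -/

namespace Pool.Agent.GaussPoset.St

set_option linter.unusedSectionVars false

open Finset Polynomial Win

universe u

variable {P : Type u} [Fintype P] [PartialOrder P] [DecidableEq P] {r j : ℕ}

lemma inn_of_pre (h : Pre P r j) : Inn P j := by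
  have h1 := h.inner
  unfold Inn
  unfold ZI YI at h1
  convert h1

/-- level `j` is good if the first order identity holds -/
theorem good_j_pre (h : Pre P r j) {th f : Finset P → ℤ} {g : P → ℤ}
    (hf : ∀ T, f T = Fm (Df j) (lv P j) T)
    (hg : ∀ v ∈ lv P j, g v = ∑ S ∈ ((lv P j).erase v).powerset,
      (∏ a ∈ S, Df j {v, a}) * f (insert v S))
    (h0 : ∀ T, 0 ≤ th T)
    (h1 : ∀ z ∈ PD P j, ∀ w, z ⋖ w → (uc w).card = 2 → 1 ≤ th (uc w))
    (h6 : ∑ e ∈ (lv P j).powersetCard 2, Bf j e * (∑ v ∈ e, f {v} + f e - 3) +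
      2 * ∑ v ∈ lv P j, sing v * (f {v} - 1) - 2 * ∑ v ∈ lv P j, (g v - 1) +
      2 * ∑ e ∈ (lv P j).powersetCard 2, th e * f e = 0) : Good P j := by
  obtain ⟨I, hI, hV, hc⟩ := pre_stars h
  exact good_j_of h.H h.hj h.hr hI hV hc h0 h1 (h6_of hf hg h6) (inn_of_pre h)
    (h.PU_empty le_rfl)

end Pool.Agent.GaussPoset.St
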