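import Pool.Agent.W_448gj_h24.GjD
import Pool.Agent.W_448t6_h94.TsP

/-! Level `j` is good (MP_448cb3_co). -/

namespace Pool.Agent.GaussPoset.Win

set_option linter.unusedSectionVars false

open Finset

universe u

variable {P : Type u} [Fintype P] [PartialOrder P] [DecidableEq P] {r j : ℕ}

/-- if every maximal element covers two elements and the levels less than `j` are good then the
level `j` is good -/
theorem Pre.good_j (h : Pre P r j) : Good P j := by
  obtain ⟨I, hI, hV, hc⟩ := St.pre_stars h
  have hr := h.hr
  exact St.good_j_of h.H h.hj h.hr hI hV hc (th := T6N.thD j) (fun T => T6N.thD_nonneg j T)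
    (fun z hz w hw _ => T6N.thD_pos h.H hz hw)
    (T6_h6 h.H (by omega) h.dn_le (h.PU_empty le_rfl)) (St.inn_of_pre h) (h.PU_empty le_rfl)

end Pool.Agent.GaussPoset.Win
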